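import Mathlib
import Pool.Agent.H.MP_ea2cf4_gt.A

set_option autoImplicit false

namespace Pool.Agent.Results.MP_ea2cf4_gt.No

open Pool.Agent.H.MP_ea2cf4_gt

theorem result : IsTopologicalAddGroup G ∧ PolishSpace G ∧ BorelSpace G ∧
    IsClosed A ∧ HN A ∧ ¬ σNF A :=
  ⟨inferInstance, inferInstance, inferInstance, cl, hn, nf⟩

end Pool.Agent.Results.MP_ea2cf4_gt.No
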